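import Pool.Agent.K7.H16.SG.Stm

set_option autoImplicit false

open Finset

namespace Pool.Agent.K7.H16.SGANA

open Pool.Agent.K7.H16.SG (c)

/-- the convolution square of `c` -/
def cv (m : ℕ) : ℚ := ∑ i : Fin (m + 1), c i * c (m - i)

lemma cv_eq (m : ℕ) : cv m = ∑ i ∈ range (m + 1), c i * c (m - i) :=
  (Finset.sum_range (fun i => c i * c (m - i))).symm

lemma c_succ (m : ℕ) : c (m + 1) = min (cv m)
    ((1 + 1 / ((m : ℚ) + 1)) / 2 * cv m + c m - c m / ((m : ℚ) + 1)) := by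
  rw [c]; rfl

lemma c0 : c 0 = 1 := by rw [c]

lemma v0 : cv 0 = 1 := by
  rw [cv_eq]; simp only [sum_range_succ, sum_range_zero, Nat.reduceSub, c0]; norm_num

lemma c1 : c 1 = 1 := by
  rw [show (1 : ℕ) = 0 + 1 from rfl, c_succ, v0, c0]; norm_num

lemma v1 : cv 1 = 2 := by
  rw [cv_eq]; simp only [sum_range_succ, sum_range_zero, Nat.reduceSub, c0, c1]; norm_num

lemma c2 : c 2 = 2 := by
  rw [show (2 : ℕ) = 1 + 1 from rfl, c_succ, v1, c1]; norm_num

lemma v2 : cv 2 = 5 := by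
  rw [cv_eq]; simp only [sum_range_succ, sum_range_zero, Nat.reduceSub, c0, c1, c2]; norm_num

lemma c3 : c 3 = 14 / 3 := by
  rw [show (3 : ℕ) = 2 + 1 from rfl, c_succ, v2, c2]; norm_num

lemma v3 : cv 3 = 40 / 3 := by
  rw [cv_eq]; simp only [sum_range_succ, sum_range_zero, Nat.reduceSub, c0, c1, c2, c3]; norm_num

lemma c4 : c 4 = 71 / 6 := by
  rw [show (4 : ℕ) = 3 + 1 from rfl, c_succ, v3, c3]; norm_num

lemma v4 : cv 4 = 37 := by
  rw [cv_eq]; simp only [sum_range_succ, sum_range_zero, Nat.reduceSub, c0, c1, c2, c3, c4]; norm_num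

lemma c5 : c 5 = 95 / 3 := by
  rw [show (5 : ℕ) = 4 + 1 from rfl, c_succ, v4, c4]; norm_num

lemma v5 : cv 5 = 317 / 3 := by
  rw [cv_eq]; simp only [sum_range_succ, sum_range_zero, Nat.reduceSub, c0, c1, c2, c3, c4, c5]; norm_num

lemma c6 : c 6 = 3169 / 36 := by
  rw [show (6 : ℕ) = 5 + 1 from rfl, c_succ, v5, c5]; norm_num

lemma v6 : cv 6 = 617 / 2 := by
  rw [cv_eq]; simp only [sum_range_succ, sum_range_zero, Nat.reduceSub, c0, c1, c2, c3, c4, c5, c6]; norm_num

lemma c7 : c 7 = 10573 / 42 := by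
  rw [show (7 : ℕ) = 6 + 1 from rfl, c_succ, v6, c6]; norm_num

lemma v7 : cv 7 = 12833 / 14 := by
  rw [cv_eq]; simp only [sum_range_succ, sum_range_zero, Nat.reduceSub, c0, c1, c2, c3, c4, c5, c6, c7]; norm_num

lemma c8 : c 8 = 494513 / 672 := by
  rw [show (8 : ℕ) = 7 + 1 from rfl, c_succ, v7, c7]; norm_num

lemma v8 : cv 8 = 2785039 / 1008 := by
  rw [cv_eq]; simp only [sum_range_succ, sum_range_zero, Nat.reduceSub, c0, c1, c2, c3, c4, c5, c6, c7, c8]; norm_num

lemma c9 : c 9 = 19859351 / 9072 := by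
  rw [show (9 : ℕ) = 8 + 1 from rfl, c_succ, v8, c8]; norm_num

lemma v9 : cv 9 = 76458073 / 9072 := by
  rw [cv_eq]; simp only [sum_range_succ, sum_range_zero, Nat.reduceSub, c0, c1, c2, c3, c4, c5, c6, c7, c8, c9]; norm_num

lemma c10 : c 10 = 171215303 / 25920 := by
  rw [show (10 : ℕ) = 9 + 1 from rfl, c_succ, v9, c9]; norm_num

lemma v10 : cv 10 = 785284667 / 30240 := by
  rw [cv_eq]; simp only [sum_range_succ, sum_range_zero, Nat.reduceSub, c0, c1, c2, c3, c4, c5, c6, c7, c8, c9, c10]; norm_num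

lemma c11 : c 11 = 20127659611 / 997920 := by
  rw [show (11 : ℕ) = 10 + 1 from rfl, c_succ, v10, c10]; norm_num

lemma v11 : cv 11 = 11505695419 / 142560 := by
  rw [cv_eq]; simp only [sum_range_succ, sum_range_zero, Nat.reduceSub, c0, c1, c2, c3, c4, c5, c6, c7, c8, c9, c10, c11]; norm_num

lemma c12 : c 12 = 1489826794571 / 23950080 := by
  rw [show (12 : ℕ) = 11 + 1 from rfl, c_succ, v11, c11]; norm_num

lemma v12 : cv 12 = 144106470979 / 570240 := by
  rw [cv_eq]; simp only [sum_range_succ, sum_range_zero, Nat.reduceSub, c0, c1, c2, c3, c4, c5, c6, c7, c8, c9, c10, c11, c12]; norm_num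

lemma c13 : c 13 = 70215878791 / 362880 := by
  rw [show (13 : ℕ) = 12 + 1 from rfl, c_succ, v12, c12]; norm_num

lemma v13 : cv 13 = 3179242932587 / 3991680 := by
  rw [cv_eq]; simp only [sum_range_succ, sum_range_zero, Nat.reduceSub, c0, c1, c2, c3, c4, c5, c6, c7, c8, c9, c10, c11, c12, c13]; norm_num

lemma c14 : c 14 = 67770385323031 / 111767040 := by
  rw [show (14 : ℕ) = 13 + 1 from rfl, c_succ, v13, c13]; norm_num

lemma v14 : cv 14 = 423262817531021 / 167650560 := by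
  rw [cv_eq]; simp only [sum_range_succ, sum_range_zero, Nat.reduceSub, c0, c1, c2, c3, c4, c5, c6, c7, c8, c9, c10, c11, c12, c13, c14]; norm_num

lemma c15 : c 15 = 4809280632031819 / 2514758400 := by
  rw [show (15 : ℕ) = 14 + 1 from rfl, c_succ, v14, c14]; norm_num

lemma v15 : cv 15 = 20228010351604373 / 2514758400 := by
  rw [cv_eq]; simp only [sum_range_succ, sum_range_zero, Nat.reduceSub, c0, c1, c2, c3, c4, c5, c6, c7, c8, c9, c10, c11, c12, c13, c14, c15]; norm_num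

lemma c16 : c 16 = 6339670064132843 / 1045094400 := by
  rw [show (16 : ℕ) = 15 + 1 from rfl, c_succ, v15, c15]; norm_num

lemma v16 : cv 16 = 345288908553807193 / 13412044800 := by
  rw [cv_eq]; simp only [sum_range_succ, sum_range_zero, Nat.reduceSub, c0, c1, c2, c3, c4, c5, c6, c7, c8, c9, c10, c11, c12, c13, c14, c15, c16]; norm_num

lemma c17 : c 17 = 13228037290458625499 / 684014284800 := by
  rw [show (17 : ℕ) = 16 + 1 from rfl, c_succ, v16, c16]; norm_num

lemma v17 : cv 17 = 56592950912004096677 / 684014284800 := by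
  rw [cv_eq]; simp only [sum_range_succ, sum_range_zero, Nat.reduceSub, c0, c1, c2, c3, c4, c5, c6, c7, c8, c9, c10, c11, c12, c13, c14, c15, c16, c17]; norm_num

lemma c18 : c 18 = 1525019335203671103829 / 24624514252800 := by
  rw [show (18 : ℕ) = 17 + 1 from rfl, c_succ, v17, c17]; norm_num

lemma v18 : cv 18 = 33190717547120428951 / 124366233600 := by
  rw [cv_eq]; simp only [sum_range_succ, sum_range_zero, Nat.reduceSub, c0, c1, c2, c3, c4, c5, c6, c7, c8, c9, c10, c11, c12, c13, c14, c15, c16, c17, c18]; norm_num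

lemma c19 : c 19 = 575110918376324254271 / 2888060313600 := by
  rw [show (19 : ℕ) = 18 + 1 from rfl, c_succ, v18, c18]; norm_num

lemma v19 : cv 19 = 67353601268326750621043 / 77977628467200 := by
  rw [cv_eq]; simp only [sum_range_succ, sum_range_zero, Nat.reduceSub, c0, c1, c2, c3, c4, c5, c6, c7, c8, c9, c10, c11, c12, c13, c14, c15, c16, c17, c18, c19]; norm_num

lemma c20 : c 20 = 668163142962990149307983 / 1039701712896000 := by
  rw [show (20 : ℕ) = 19 + 1 from rfl, c_succ, v19, c19]; norm_num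

lemma v20 : cv 20 = 13119581484698465520921787 / 4678657708032000 := by
  rw [cv_eq]; simp only [sum_range_succ, sum_range_zero, Nat.reduceSub, c0, c1, c2, c3, c4, c5, c6, c7, c8, c9, c10, c11, c12, c13, c14, c15, c16, c17, c18, c19, c20]; norm_num

lemma c21 : c 21 = 204450079198352234167858127 / 98251811868672000 := by
  rw [show (21 : ℕ) = 20 + 1 from rfl, c_succ, v20, c20]; norm_num

lemma v21 : cv 21 = 47207679416946451529915539 / 5171147993088000 := by
  rw [cv_eq]; simp only [sum_range_succ, sum_range_zero, Nat.reduceSub, c0, c1, c2, c3, c4, c5, c6, c7, c8, c9, c10, c11, c12, c13, c14, c15, c16, c17, c18, c19, c20, c21]; norm_num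

lemma c22 : c 22 = 1718627013619787832566066581 / 254298807189504000 := by
  rw [show (22 : ℕ) = 21 + 1 from rfl, c_succ, v21, c21]; norm_num

lemma v22 : cv 22 = 21469162235429716941249923711 / 720513287036928000 := by
  rw [cv_eq]; simp only [sum_range_succ, sum_range_zero, Nat.reduceSub, c0, c1, c2, c3, c4, c5, c6, c7, c8, c9, c10, c11, c12, c13, c14, c15, c16, c17, c18, c19, c20, c21, c22]; norm_num

lemma c23 : c 23 = 1094273092022370134574851704243 / 49715416805548032000 := by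
  rw [show (23 : ℕ) = 22 + 1 from rfl, c_succ, v22, c22]; norm_num

lemma c_nonneg : ∀ n, 0 ≤ c n := by
  intro n
  induction n using Nat.strong_induction_on with
  | _ n ih =>
    cases n with
    | zero => rw [c0]; norm_num
    | succ m =>
      have h1 : 0 ≤ cv m := by
        rw [cv_eq]
        refine sum_nonneg fun i hi => ?_
        have : i < m + 1 := mem_range.1 hi
        exact mul_nonneg (ih i (by omega)) (ih (m - i) (by omega))
      have h2 : 0 ≤ c m := ih m (by omega)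
      have h3 : c m / ((m : ℚ) + 1) ≤ c m := div_le_self h2 (by linarith [(Nat.cast_nonneg m : (0 : ℚ) ≤ m)])
      rw [c_succ]
      refine le_min h1 ?_
      have h4 : (0 : ℚ) ≤ (1 + 1 / ((m : ℚ) + 1)) / 2 * cv m := by positivity
      linarith

lemma cv_nonneg (m : ℕ) : 0 ≤ cv m := by
  rw [cv_eq]; exact sum_nonneg fun i _ => mul_nonneg (c_nonneg _) (c_nonneg _)

lemma c_le (m : ℕ) (hm : 23 ≤ m) : c (m + 1) ≤ 25 / 48 * cv m + c m := by
  rw [c_succ]
  refine (min_le_right _ _).trans ?_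
  have hm' : (23 : ℚ) ≤ m := by exact_mod_cast hm
  have h1 : 1 / ((m : ℚ) + 1) ≤ 1 / 24 := one_div_le_one_div_of_le (by norm_num) (by linarith)
  have h2 : 0 ≤ c m / ((m : ℚ) + 1) := div_nonneg (c_nonneg m) (by linarith)
  have h3 := cv_nonneg m
  nlinarith

/-- partial sums -/
def P (n : ℕ) : ℚ := ∑ k ∈ range n, c k * (2 / 7 : ℚ) ^ k

/-- partial sums of the square -/
def T (n : ℕ) : ℚ := ∑ k ∈ range n, cv k * (2 / 7 : ℚ) ^ k

lemma P_succ (n : ℕ) : P (n + 1) = P n + c n * (2 / 7 : ℚ) ^ n := sum_range_succ _ _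

lemma T_succ (n : ℕ) : T (n + 1) = T n + cv n * (2 / 7 : ℚ) ^ n := sum_range_succ _ _

lemma P_mono {m n : ℕ} (h : m ≤ n) : P m ≤ P n :=
  sum_le_sum_of_subset_of_nonneg (range_subset_range.2 h) fun i _ _ =>
    mul_nonneg (c_nonneg i) (by positivity)

lemma P_nonneg (n : ℕ) : 0 ≤ P n := sum_nonneg fun i _ => mul_nonneg (c_nonneg i) (by positivity)

lemma T_le (n : ℕ) : T n ≤ P n ^ 2 := by
  have h : T n = ∑ m ∈ range n, ∑ k ∈ range (n - m), (c m * (2 / 7 : ℚ) ^ m) * (c k * (2 / 7 : ℚ) ^ k) := by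
    rw [← Finset.sum_range_diag_flip n (fun i j => (c i * (2 / 7 : ℚ) ^ i) * (c j * (2 / 7 : ℚ) ^ j))]
    refine sum_congr rfl fun m _ => ?_
    rw [cv_eq, sum_mul]
    refine sum_congr rfl fun i hi => ?_
    have hi' : i ≤ m := Nat.lt_succ_iff.1 (mem_range.1 hi)
    have : (2 / 7 : ℚ) ^ m = (2 / 7 : ℚ) ^ i * (2 / 7 : ℚ) ^ (m - i) := by rw [← pow_add]; congr 1; omega
    rw [this]; ring
  rw [h, sq, P, sum_mul]
  refine sum_le_sum fun m _ => ?_
  rw [← mul_sum]
  refine mul_le_mul_of_nonneg_left ?_ (mul_nonneg (c_nonneg m) (by positivity))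
  exact P_mono (Nat.sub_le n m)

lemma PN : P 24 ≤ 56 / 25 := by
  simp only [P, sum_range_succ, sum_range_zero, c0, c1, c2, c3, c4, c5, c6, c7, c8, c9, c10, c11, c12, c13, c14, c15, c16, c17, c18, c19, c20, c21, c22, c23]; norm_num

lemma base : P 24 ≤ 8529 / 10000 + 25 / 48 * (2 / 7 : ℚ) * T 23 + (2 / 7 : ℚ) * P 23 := by
  simp only [P, T, sum_range_succ, sum_range_zero, c0, c1, c2, c3, c4, c5, c6, c7, c8, c9, c10, c11, c12, c13, c14, c15, c16, c17, c18, c19, c20, c21, c22, c23, v0, v1, v2, v3, v4, v5, v6, v7, v8, v9, v10, v11, v12, v13, v14, v15, v16, v17, v18, v19, v20, v21, v22]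
  norm_num

lemma rec (n : ℕ) (hn : 23 ≤ n) :
    P (n + 1) ≤ 8529 / 10000 + 25 / 48 * (2 / 7 : ℚ) * T n + (2 / 7 : ℚ) * P n := by
  induction n, hn using Nat.le_induction with
  | base => exact base
  | succ n hn ih =>
    have h1 := mul_le_mul_of_nonneg_right (c_le n hn) (by positivity : (0 : ℚ) ≤ (2 / 7 : ℚ) ^ (n + 1))
    rw [P_succ (n + 1), T_succ n]
    have h2 : (2 / 7 : ℚ) * P (n + 1) = (2 / 7 : ℚ) * P n + c n * (2 / 7 : ℚ) ^ (n + 1) := by
      rw [P_succ, pow_succ]; ring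
    have h3 : (25 / 48 * cv n + c n) * (2 / 7 : ℚ) ^ (n + 1) =
        25 / 48 * (2 / 7 : ℚ) * (cv n * (2 / 7 : ℚ) ^ n) + c n * (2 / 7 : ℚ) ^ (n + 1) := by
      rw [pow_succ]; ring
    linarith

lemma bound (n : ℕ) : P n ≤ 56 / 25 := by
  induction n with
  | zero => exact (P_mono (by omega)).trans PN
  | succ n ih =>
    by_cases hn : 23 ≤ n
    · have h1 := rec n hn
      have h2 := T_le n
      have h3 := P_nonneg n
      have h4 : P n ^ 2 ≤ (56 / 25) ^ 2 := pow_le_pow_left₀ h3 ih 2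
      linarith
    · exact (P_mono (by omega)).trans PN

theorem t : ∃ y : ℚ, ∀ n, c n ≤ y * (7 / 2) ^ n := by
  refine ⟨56 / 25, fun n => ?_⟩
  have h1 := bound (n + 1)
  rw [P_succ] at h1
  have h2 := P_nonneg n
  have h3 : c n * (2 / 7 : ℚ) ^ n ≤ 56 / 25 := by linarith
  have h4 : ((2 / 7 : ℚ)) ^ n * (7 / 2 : ℚ) ^ n = 1 := by rw [← mul_pow]; norm_num
  calc c n = c n * ((2 / 7 : ℚ) ^ n * (7 / 2 : ℚ) ^ n) := by rw [h4, mul_one]
    _ = (c n * (2 / 7 : ℚ) ^ n) * (7 / 2 : ℚ) ^ n := by ring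
    _ ≤ 56 / 25 * (7 / 2 : ℚ) ^ n := mul_le_mul_of_nonneg_right h3 (by positivity)

end Pool.Agent.K7.H16.SGANA
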