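import Pool.Agent.K7.H16.SG.Stm

set_option autoImplicit false

open Finset Filter Topology

namespace Pool.Agent.K7.H16.SG

/-- the degree of noninvertibility `d_n` of `s` on the permutations of `{1, ..., n}` -/
noncomputable def d (n : ℕ) : ℝ := (∑ w ∈ words (Icc 1 n), (f w : ℝ) ^ 2) / n.factorial

theorem fin (hN : StNum) (hA : StAna) :
    (∃ C : ℝ, ∀ n, d n ≤ C * (71 / 20) ^ n) ∧
    ∀ L : ℝ, Tendsto (fun n : ℕ => d n ^ (1 / (n : ℝ))) atTop (𝓝 L) → L ≤ 71 / 20 := by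
  obtain ⟨y, hy⟩ := hA
  have h1 : ∀ n, d n ≤ (y : ℝ) * (71 / 20) ^ n := by
    intro n
    have h2 := hN (Icc 1 n)
    rw [Nat.card_Icc, Nat.add_sub_cancel] at h2
    have h3 := hy n
    have h4 : (D (Icc 1 n) : ℚ) ≤ n.factorial * (y * (71 / 20) ^ n) :=
      h2.trans (mul_le_mul_of_nonneg_left h3 (by positivity))
    have h5 : ((D (Icc 1 n) : ℚ) : ℝ) ≤ ((n.factorial * (y * (71 / 20) ^ n) : ℚ) : ℝ) := by
      exact_mod_cast h4
    have h6 : ((D (Icc 1 n) : ℚ) : ℝ) = ∑ w ∈ words (Icc 1 n), (f w : ℝ) ^ 2 := by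
      unfold D
      push_cast
      rfl
    unfold d
    rw [div_le_iff₀ (by positivity), ← h6]
    refine h5.trans (le_of_eq ?_)
    push_cast
    ring
  refine ⟨⟨y, h1⟩, fun L hL => ?_⟩
  set Y : ℝ := max (y : ℝ) 1 with hY
  have hY1 : 1 ≤ Y := le_max_right _ _
  have h2 : Tendsto (fun n : ℕ => Y ^ (1 / (n : ℝ)) * (71 / 20)) atTop (𝓝 (71 / 20)) := by
    have h3 : Tendsto (fun n : ℕ => Y ^ (1 / (n : ℝ))) atTop (𝓝 (Y ^ (0 : ℝ))) := by
      have h4 : Tendsto (fun n : ℕ => 1 / (n : ℝ)) atTop (𝓝 0) := tendsto_one_div_atTop_nhds_zero_nat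
      exact (Real.continuousAt_const_rpow (by positivity)).tendsto.comp h4
    rw [Real.rpow_zero] at h3
    simpa using h3.mul_const (71 / 20 : ℝ)
  refine le_of_tendsto_of_tendsto hL h2 ?_
  filter_upwards [eventually_gt_atTop 0] with n hn
  have hn0 : (0 : ℝ) < n := by exact_mod_cast hn
  have hd : 0 ≤ d n := by unfold d; positivity
  have h3 : d n ≤ Y * (71 / 20) ^ n :=
    (h1 n).trans (mul_le_mul_of_nonneg_right (le_max_left _ _) (by positivity))
  calc d n ^ (1 / (n : ℝ)) ≤ (Y * (71 / 20) ^ n) ^ (1 / (n : ℝ)) :=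
        Real.rpow_le_rpow hd h3 (by positivity)
    _ = Y ^ (1 / (n : ℝ)) * (71 / 20) := by
        rw [Real.mul_rpow (by positivity) (by positivity), ← Real.rpow_natCast, ← Real.rpow_mul (by positivity)]
        rw [mul_one_div_cancel hn0.ne', Real.rpow_one]

end Pool.Agent.K7.H16.SG
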