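import Pool.Agent.K7.H16.SG.Stm

set_option autoImplicit false

open Finset

namespace Pool.Agent.K7.H16.SG

lemma one_term {n : ℕ} {a : ℕ → ℕ} (h : ∀ i ∈ range n, ∀ j ∈ range n, a i ≠ 0 → a j ≠ 0 → i = j) :
    (∑ i ∈ range n, a i) ^ 2 = ∑ i ∈ range n, a i ^ 2 := by
  by_cases h0 : ∀ i ∈ range n, a i = 0
  · rw [sum_eq_zero h0, sum_eq_zero (fun i hi => by rw [h0 i hi]; rfl)]
    rfl
  · push Not at h0
    obtain ⟨i, hi, hai⟩ := h0
    rw [sum_eq_single_of_mem i hi (fun j hj hne => by
      by_contra hc
      exact hne (h j hj i hi hc hai)), sum_eq_single_of_mem i hi (fun j hj hne => by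
      by_contra hc
      exact hne (h j hj i hi (by intro h'; rw [h'] at hc; exact hc rfl) hai))]

/-- a word with entries at most `M'`, containing `M'`, with a preimage, ends in `M'` -/
lemma ends (hF0 : StF0) {w : List ℕ} {M' : ℕ} (hw : w.Nodup) (hle : ∀ a ∈ w, a ≤ M') (hM : M' ∈ w)
    (hf : f w ≠ 0) : ∃ τ, w = τ ++ [M'] := by
  obtain ⟨τ, m, rfl, h⟩ := hF0 w hw hf (List.ne_nil_of_mem hM)
  refine ⟨τ, ?_⟩
  rcases List.mem_append.1 hM with h1 | h1
  · have h2 := h M' h1
    have h3 := hle m (by simp)
    omega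
  · rw [List.mem_singleton] at h1
    rw [h1]

lemma point (hF1 : StF1) (hF0 : StF0) {τ : List ℕ} {M' M : ℕ} (hτ : τ.Nodup)
    (hle : ∀ a ∈ τ, a ≤ M') (hM : M' ∈ τ) (hMM : M' < M) :
    f (τ ++ [M]) ^ 2 ≤ (∑ i ∈ range τ.length, (if M' ∈ τ.take i then f (τ.take i) ^ 2 else 0) * f (τ.drop i) ^ 2) +
      (τ.length + 1) * ((∑ i ∈ range τ.length, (if M' ∉ τ.take i then f (τ.take i) ^ 2 else 0) * f (τ.drop i) ^ 2)
        + f (τ.take τ.length) ^ 2 * f (τ.drop τ.length) ^ 2) := by
  rw [hF1 τ M hτ (fun a ha => (hle a ha).trans_lt hMM)]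
  by_cases hE : ∃ σ, τ = σ ++ [M']
  · obtain ⟨σ, rfl⟩ := hE
    have h1 : (∑ i ∈ range ((σ ++ [M']).length + 1), f ((σ ++ [M']).take i) * f ((σ ++ [M']).drop i)) ^ 2 ≤
        ((σ ++ [M']).length + 1) * ∑ i ∈ range ((σ ++ [M']).length + 1),
          (f ((σ ++ [M']).take i) * f ((σ ++ [M']).drop i)) ^ 2 := by
      have := sq_sum_le_card_mul_sum_sq (s := range ((σ ++ [M']).length + 1))
        (f := fun i => f ((σ ++ [M']).take i) * f ((σ ++ [M']).drop i))
      simpa using this
    refine h1.trans ?_
    refine le_trans ?_ (Nat.le_add_left _ _)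
    refine Nat.mul_le_mul_left _ ?_
    rw [sum_range_succ, mul_pow]
    refine Nat.add_le_add_right (le_of_eq ?_) _
    refine sum_congr rfl fun i hi => ?_
    rw [mem_range, List.length_append, List.length_singleton] at hi
    have h2 : (σ ++ [M']).take i = σ.take i := by
      rw [List.take_append_of_le_length (by omega)]
    have h3 : M' ∉ (σ ++ [M']).take i := by
      rw [h2]
      intro h
      have h4 := List.mem_of_mem_take h
      rw [List.nodup_append] at hτ
      exact hτ.2.2 M' h4 M' (by simp) rfl
    rw [if_pos h3, mul_pow]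
  · have hz : ∀ i, M' ∉ τ.take i → f (τ.take i) * f (τ.drop i) = 0 := by
      intro i hi
      by_contra hc
      have h1 : M' ∈ τ.drop i := by
        rw [← List.take_append_drop i τ, List.mem_append] at hM
        exact hM.resolve_left hi
      obtain ⟨ρ, hρ⟩ := ends hF0 (hτ.sublist (List.drop_sublist i τ))
        (fun a ha => hle a (List.mem_of_mem_drop ha)) h1 (right_ne_zero_of_mul hc)
      exact hE ⟨τ.take i ++ ρ, by rw [List.append_assoc, ← hρ, List.take_append_drop]⟩
    have hlast : f (τ.take τ.length) * f (τ.drop τ.length) = 0 := by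
      by_contra hc
      have h0 := left_ne_zero_of_mul hc
      rw [List.take_length] at h0
      obtain ⟨ρ, hρ⟩ := ends hF0 hτ hle hM h0
      exact hE ⟨ρ, hρ⟩
    have hone : ∀ i ∈ range (τ.length + 1), ∀ j ∈ range (τ.length + 1),
        f (τ.take i) * f (τ.drop i) ≠ 0 → f (τ.take j) * f (τ.drop j) ≠ 0 → i = j := by
      have key : ∀ i ∈ range (τ.length + 1), f (τ.take i) * f (τ.drop i) ≠ 0 →
          τ.idxOf M' + 1 = i := by
        intro i hi hc
        rw [mem_range] at hi
        have h1 : M' ∈ τ.take i := by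
          by_contra h
          exact hc (hz i h)
        obtain ⟨ρ, hρ⟩ := ends hF0 (hτ.sublist (List.take_sublist i τ))
          (fun a ha => hle a (List.mem_of_mem_take ha)) h1 (left_ne_zero_of_mul hc)
        have h2 : i = ρ.length + 1 := by
          have := congrArg List.length hρ
          rw [List.length_take, List.length_append, List.length_singleton] at this
          omega
        have h3 : τ = ρ ++ M' :: τ.drop i := by
          conv_lhs => rw [← List.take_append_drop i τ, hρ]
          simp
        have h4 : M' ∉ ρ := by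
          intro h
          rw [h3, List.nodup_append] at hτ
          exact hτ.2.2 M' h M' (by simp) rfl
        rw [h3, List.idxOf_append_of_notMem h4]
        simp [h2]
      intro i hi j hj h1 h2
      rw [← key i hi h1, key j hj h2]
    rw [one_term hone, sum_range_succ, hlast]
    refine le_trans ?_ (Nat.le_add_right _ _)
    rw [zero_pow (by norm_num), add_zero]
    refine sum_le_sum fun i _ => ?_
    by_cases hi : M' ∈ τ.take i
    · rw [if_pos hi, mul_pow]
    · rw [hz i hi]
      simp

theorem rec2 (hF1 : StF1) (hF0 : StF0) (hW : StW) (hSpl : StSpl) : StRec2 := by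
  intro A M' M hA hM
  obtain ⟨hW1, -, hf0, -⟩ := hW
  set A' := insert M' A with hA'
  have hM'A : M' ∉ A := fun h => (hA M' h).ne rfl
  have hcard : A'.card = A.card + 1 := by rw [hA', card_insert_of_notMem hM'A]
  have hle : ∀ a ∈ A', a ≤ M' := by
    intro a ha
    rcases mem_insert.1 ha with h | h
    · exact h.le
    · exact (hA a h).le
  have hMA' : M ∉ A' := fun h => absurd (hle M h) (not_le.2 hM)
  have hlen : ∀ τ ∈ words A', τ.length = A'.card := by
    intro τ hτ
    obtain ⟨h1, h2⟩ := (hW1 A' τ).1 hτ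
    rw [← h2, List.toFinset_card_of_nodup h1]
  -- step 1
  have s1 : D (insert M A') ≤ ∑ τ ∈ words A', f (τ ++ [M]) ^ 2 := by
    have hinj : Function.Injective (fun τ : List ℕ => τ ++ [M]) := fun a b h => List.append_cancel_right h
    have e : ∑ τ ∈ words A', f (τ ++ [M]) ^ 2 = ∑ w ∈ (words A').image (fun τ => τ ++ [M]), f w ^ 2 := by
      rw [sum_image fun a _ b _ h => hinj h]
    rw [e]
    unfold D
    refine le_of_eq (Eq.symm (sum_subset ?_ ?_))
    · intro w hw
      obtain ⟨τ, hτ, rfl⟩ := mem_image.1 hw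
      obtain ⟨h1, h2⟩ := (hW1 A' τ).1 hτ
      rw [hW1]
      refine ⟨?_, ?_⟩
      · rw [List.nodup_append]
        refine ⟨h1, List.nodup_singleton M, ?_⟩
        intro a ha b hb hab
        rw [List.mem_singleton] at hb
        apply hMA'
        rw [← h2, List.mem_toFinset, ← hb, ← hab]
        exact ha
      · rw [List.toFinset_append, h2]
        ext x
        simp [or_comm]
    · intro w hw hni
      by_contra hc
      obtain ⟨h1, h2⟩ := (hW1 _ w).1 hw
      have hMw : M ∈ w := by
        rw [← List.mem_toFinset, h2]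
        exact mem_insert_self _ _
      obtain ⟨τ, rfl⟩ := ends hF0 h1 (fun a ha => by
        rw [← List.mem_toFinset, h2, mem_insert] at ha
        rcases ha with h | h
        · exact h.le
        · exact (hle a h).trans hM.le) hMw (by intro h'; rw [h'] at hc; exact hc rfl)
      apply hni
      refine mem_image.2 ⟨τ, ?_, rfl⟩
      rw [hW1]
      rw [List.nodup_append] at h1
      refine ⟨h1.1, ?_⟩
      have hMτ : M ∉ τ := fun h => h1.2.2 M h M (by simp) rfl
      ext x
      constructor
      · intro hx
        have h3 : x ∈ (τ ++ [M]).toFinset := by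
          rw [List.toFinset_append]; exact mem_union_left _ hx
        rw [h2, mem_insert] at h3
        rcases h3 with h | h
        · subst h
          exact absurd (List.mem_toFinset.1 hx) hMτ
        · exact h
      · intro hx
        have h3 : x ∈ (τ ++ [M]).toFinset := by
          rw [h2]; exact mem_insert_of_mem hx
        rw [List.mem_toFinset, List.mem_append] at h3
        rcases h3 with h | h
        · exact List.mem_toFinset.2 h
        · rw [List.mem_singleton] at h
          subst h
          exact absurd hx hMA'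
  -- step 2
  have s2 : ∑ τ ∈ words A', f (τ ++ [M]) ^ 2 ≤
      (∑ i ∈ range A'.card, ∑ τ ∈ words A', (if M' ∈ τ.take i then f (τ.take i) ^ 2 else 0) * f (τ.drop i) ^ 2) +
      (A'.card + 1) * ((∑ i ∈ range A'.card, ∑ τ ∈ words A',
        (if M' ∉ τ.take i then f (τ.take i) ^ 2 else 0) * f (τ.drop i) ^ 2) + D A') := by
    rw [sum_comm, sum_comm (s := range A'.card) (t := words A') (f := fun i τ =>
      (if M' ∉ τ.take i then f (τ.take i) ^ 2 else 0) * f (τ.drop i) ^ 2)]
    unfold D
    rw [← sum_add_distrib, mul_sum, ← sum_add_distrib]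
    refine sum_le_sum fun τ hτ => ?_
    obtain ⟨h1, h2⟩ := (hW1 A' τ).1 hτ
    have h3 := point hF1 hF0 h1 (fun a ha => hle a (by rw [← h2]; exact List.mem_toFinset.2 ha))
      (List.mem_toFinset.1 (by rw [h2]; exact mem_insert_self _ _)) hM
    rw [hlen τ hτ] at h3
    have h4 : τ.take A'.card = τ := by rw [← hlen τ hτ, List.take_length]
    have h5 : τ.drop A'.card = [] := by rw [← hlen τ hτ, List.drop_length]
    rw [h4, h5, hf0, one_pow, mul_one] at h3
    exact h3
  -- the sums over the words
  have hsum1 : ∀ B : Finset ℕ, ∑ u ∈ words B, (if M' ∈ u then f u ^ 2 else 0) = if M' ∈ B then D B else 0 := by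
    intro B
    by_cases hB : M' ∈ B
    · rw [if_pos hB]
      refine sum_congr rfl fun u hu => ?_
      have := ((hW1 B u).1 hu).2
      rw [if_pos (List.mem_toFinset.1 (by rw [this]; exact hB))]
    · rw [if_neg hB]
      refine sum_eq_zero fun u hu => ?_
      have := ((hW1 B u).1 hu).2
      rw [if_neg (fun h => hB (by rw [← this]; exact List.mem_toFinset.2 h))]
  have hsum2 : ∀ B : Finset ℕ, ∑ u ∈ words B, (if M' ∉ u then f u ^ 2 else 0) = if M' ∉ B then D B else 0 := by
    intro B
    by_cases hB : M' ∉ B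
    · rw [if_pos hB]
      refine sum_congr rfl fun u hu => ?_
      have := ((hW1 B u).1 hu).2
      rw [if_pos (fun h => hB (by rw [← this]; exact List.mem_toFinset.2 h))]
    · rw [if_neg hB]
      refine sum_eq_zero fun u hu => ?_
      have := ((hW1 B u).1 hu).2
      rw [if_neg (not_not.2 (List.mem_toFinset.1 (by rw [this]; exact not_not.1 hB)))]
  have t1 : ∑ i ∈ range A'.card, ∑ τ ∈ words A', (if M' ∈ τ.take i then f (τ.take i) ^ 2 else 0) * f (τ.drop i) ^ 2 ≤
      ∑ B ∈ A.powerset.erase A, D (insert M' B) * D (A \ B) := by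
    have e1 : ∀ i ∈ range A'.card, ∑ τ ∈ words A', (if M' ∈ τ.take i then f (τ.take i) ^ 2 else 0) * f (τ.drop i) ^ 2 =
        ∑ B ∈ powersetCard i A', (if M' ∈ B then D B else 0) * D (A' \ B) := by
      intro i hi
      rw [hSpl A' i (fun u => if M' ∈ u then f u ^ 2 else 0) (fun v => f v ^ 2) (mem_range.1 hi).le]
      refine sum_congr rfl fun B _ => ?_
      rw [hsum1]
      rfl
    rw [sum_congr rfl e1, sum_sigma']
    have e2 : ∑ x ∈ (range A'.card).sigma (fun i => powersetCard i A'), (if M' ∈ x.2 then D x.2 else 0) * D (A' \ x.2) =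
        ∑ x ∈ ((range A'.card).sigma (fun i => powersetCard i A')).filter (fun x => M' ∈ x.2), D x.2 * D (A' \ x.2) := by
      rw [sum_filter]
      refine sum_congr rfl fun x _ => ?_
      split_ifs <;> simp
    rw [e2]
    refine le_of_eq (sum_bij (fun x _ => x.2.erase M') ?_ ?_ ?_ ?_)
    · rintro ⟨i, B⟩ hx
      simp only [mem_filter, mem_sigma, mem_range, mem_powersetCard] at hx
      obtain ⟨⟨h1, h2, h3⟩, h4⟩ := hx
      rw [mem_erase, mem_powerset]
      refine ⟨?_, ?_⟩
      · intro h
        have h5 : B.card = A.card + 1 := by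
          rw [← h, card_erase_of_mem h4]
          have : 0 < B.card := card_pos.2 ⟨_, h4⟩
          omega
        omega
      · intro x hx
        rw [mem_erase] at hx
        exact (mem_insert.1 (h2 hx.2)).resolve_left hx.1
    · rintro ⟨i, B⟩ hx ⟨j, B'⟩ hx' h
      simp only [mem_filter, mem_sigma, mem_range, mem_powersetCard] at hx hx'
      have h5 : B = B' := by
        simp only at h
        rw [← insert_erase hx.2, h, insert_erase hx'.2]
      subst h5
      have : i = j := by rw [← hx.1.2.2, ← hx'.1.2.2]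
      subst this
      rfl
    · intro B hB
      rw [mem_erase, mem_powerset] at hB
      have h6 : M' ∉ B := fun h => hM'A (hB.2 h)
      refine ⟨⟨(insert M' B).card, insert M' B⟩, ?_, ?_⟩
      · simp only [mem_filter, mem_sigma, mem_range, mem_powersetCard]
        refine ⟨⟨?_, insert_subset_insert _ hB.2, trivial⟩, mem_insert_self _ _⟩
        rw [card_insert_of_notMem h6, hcard]
        have := card_lt_card (Finset.ssubset_iff_subset_ne.2 ⟨hB.2, hB.1⟩)
        omega
      · exact erase_insert h6
    · rintro ⟨i, B⟩ hx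
      simp only [mem_filter, mem_sigma, mem_range, mem_powersetCard] at hx
      simp only
      rw [insert_erase hx.2]
      have : A' \ B = A \ B.erase M' := by
        ext x
        simp only [hA', mem_sdiff, mem_insert, mem_erase]
        constructor
        · rintro ⟨h | h, h'⟩
          · subst h; exact absurd hx.2 h'
          · exact ⟨h, fun h'' => h' h''.2⟩
        · rintro ⟨h, h'⟩
          refine ⟨Or.inr h, fun h'' => h' ⟨?_, h''⟩⟩
          rintro rfl
          exact hM'A h
      rw [this]
  have t2 : ∑ i ∈ range A'.card, ∑ τ ∈ words A', (if M' ∉ τ.take i then f (τ.take i) ^ 2 else 0) * f (τ.drop i) ^ 2 ≤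
      ∑ B ∈ A.powerset, D B * D (insert M' (A \ B)) := by
    have e1 : ∀ i ∈ range A'.card, ∑ τ ∈ words A', (if M' ∉ τ.take i then f (τ.take i) ^ 2 else 0) * f (τ.drop i) ^ 2 =
        ∑ B ∈ powersetCard i A', (if M' ∉ B then D B else 0) * D (A' \ B) := by
      intro i hi
      rw [hSpl A' i (fun u => if M' ∉ u then f u ^ 2 else 0) (fun v => f v ^ 2) (mem_range.1 hi).le]
      refine sum_congr rfl fun B _ => ?_
      rw [hsum2]
      rfl
    rw [sum_congr rfl e1, sum_sigma']
    have e2 : ∑ x ∈ (range A'.card).sigma (fun i => powersetCard i A'), (if M' ∉ x.2 then D x.2 else 0) * D (A' \ x.2) =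
        ∑ x ∈ ((range A'.card).sigma (fun i => powersetCard i A')).filter (fun x => M' ∉ x.2), D x.2 * D (A' \ x.2) := by
      rw [sum_filter]
      refine sum_congr rfl fun x _ => ?_
      split_ifs <;> simp
    rw [e2]
    refine le_of_eq (sum_bij (fun x _ => x.2) ?_ ?_ ?_ ?_)
    · rintro ⟨i, B⟩ hx
      simp only [mem_filter, mem_sigma, mem_range, mem_powersetCard] at hx
      obtain ⟨⟨h1, h2, h3⟩, h4⟩ := hx
      rw [mem_powerset]
      intro x hx
      refine (mem_insert.1 (h2 hx)).resolve_left ?_
      rintro rfl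
      exact h4 hx
    · rintro ⟨i, B⟩ hx ⟨j, B'⟩ hx' h
      simp only [mem_filter, mem_sigma, mem_range, mem_powersetCard] at hx hx'
      simp only at h
      subst h
      have : i = j := by rw [← hx.1.2.2, ← hx'.1.2.2]
      subst this
      rfl
    · intro B hB
      rw [mem_powerset] at hB
      refine ⟨⟨B.card, B⟩, ?_, rfl⟩
      simp only [mem_filter, mem_sigma, mem_range, mem_powersetCard]
      refine ⟨⟨?_, hB.trans (subset_insert _ _), trivial⟩, fun h => hM'A (hB h)⟩
      have := card_le_card hB
      omega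
    · rintro ⟨i, B⟩ hx
      simp only [mem_filter, mem_sigma, mem_range, mem_powersetCard] at hx
      simp only
      have : A' \ B = insert M' (A \ B) := by
        rw [hA', insert_sdiff_of_notMem _ hx.2]
      rw [this]
  refine (s1.trans s2).trans ?_
  have h7 : A'.card + 1 = A.card + 2 := by omega
  rw [h7]
  exact Nat.add_le_add t1 (Nat.mul_le_mul_left _ (Nat.add_le_add_right t2 _))

end Pool.Agent.K7.H16.SG
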