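import Mathlib

/-! # Project SG (MP_e324b2_co, stack-sorting): definitions and jobs -/

set_option autoImplicit false

open Finset

namespace Pool.Agent.K7.H16.SG

/-- the stack-sorting recursion `s (L m R) = s(L) s(R) m` (`m` the largest entry), at most `k` levels -/
def sf : ℕ → List ℕ → List ℕ
  | 0, _ => []
  | k + 1, w => if w = [] then [] else
      sf k (w.takeWhile (fun x => x ≠ w.foldr max 0)) ++
      sf k ((w.dropWhile (fun x => x ≠ w.foldr max 0)).tail) ++ [w.foldr max 0]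

/-- the stack-sorting map -/
def s (w : List ℕ) : List ℕ := sf w.length w

/-- the words with entries the elements of `A`, each once -/
noncomputable def words (A : Finset ℕ) : Finset (List ℕ) := A.toList.permutations.toFinset

/-- number of preimages -/
noncomputable def f (w : List ℕ) : ℕ := ((words w.toFinset).filter (fun v => s v = w)).card

/-- the sum of the squares of the sizes of the fibres -/
noncomputable def D (A : Finset ℕ) : ℕ := ∑ w ∈ words A, f w ^ 2

/-- JOB S -/
def StS : Prop := s [] = [] ∧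
  (∀ (L R : List ℕ) (m : ℕ), (∀ a ∈ L ++ R, a < m) → s (L ++ m :: R) = s L ++ s R ++ [m]) ∧
  ∀ w : List ℕ, w.Nodup → (s w).Perm w

/-- JOB W: membership in `words` -/
def StW : Prop := (∀ A w, w ∈ words A ↔ w.Nodup ∧ w.toFinset = A) ∧ words ∅ = {[]} ∧ f [] = 1 ∧ D ∅ = 1

/-- JOB F1: recursion for the number of preimages -/
def StF1 : Prop := ∀ (τ : List ℕ) (m : ℕ), τ.Nodup → (∀ a ∈ τ, a < m) →
  f (τ ++ [m]) = ∑ i ∈ range (τ.length + 1), f (τ.take i) * f (τ.drop i)

/-- JOB F0: a word with a preimage ends with its largest entry -/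
def StF0 : Prop := ∀ w : List ℕ, w.Nodup → f w ≠ 0 → w ≠ [] →
  ∃ (τ : List ℕ) (m : ℕ), w = τ ++ [m] ∧ ∀ a ∈ τ, a < m

/-- JOB SPL: cutting words -/
def StSpl : Prop := ∀ (A : Finset ℕ) (i : ℕ) (g h : List ℕ → ℕ), i ≤ A.card →
  ∑ w ∈ words A, g (w.take i) * h (w.drop i) =
    ∑ B ∈ powersetCard i A, (∑ u ∈ words B, g u) * ∑ v ∈ words (A \ B), h v

/-- JOB REC1 -/
def StRec1 : Prop := ∀ (A : Finset ℕ) (M : ℕ), (∀ a ∈ A, a < M) →
  D (insert M A) ≤ (A.card + 1) * ∑ B ∈ A.powerset, D B * D (A \ B)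

/-- JOB REC2: `τ` a word on `insert M' A`, `f (τ M) = Σ_i f (τ.take i) f (τ.drop i)`; if `M'` is in the
first part (not everything), it is its last letter and all other terms vanish; if `M'` is in the
second part, `τ = τ' M'`: Cauchy inequality with `|A| + 2` terms -/
def StRec2 : Prop := ∀ (A : Finset ℕ) (M' M : ℕ), (∀ a ∈ A, a < M') → M' < M →
  D (insert M (insert M' A)) ≤
    ∑ B ∈ A.powerset.erase A, D (insert M' B) * D (A \ B) +
      (A.card + 2) * (∑ B ∈ A.powerset, D B * D (insert M' (A \ B)) + D (insert M' A))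

/-- the comparison sequence -/
def c : ℕ → ℚ
  | 0 => 1
  | m + 1 => min (∑ i : Fin (m + 1), c i * c (m - i))
      ((1 + 1 / ((m : ℚ) + 1)) / 2 * ∑ i : Fin (m + 1), c i * c (m - i) + c m - c m / ((m : ℚ) + 1))

/-- JOB NUM: `D A ≤ |A|! c_{|A|}`, strong induction on `|A|`. REC1 gives the first bound, for `|A| ≥ 2`
REC2 gives the second one (symmetrize `Σ p c_p c_{m-p} = m/2 Σ c_p c_{m-p}`) -/
def StNum : Prop := ∀ A : Finset ℕ, (D A : ℚ) ≤ (A.card).factorial * c A.card

/-- JOB ANA: partial sums `Σ_{k<n} c_k x^k ≤ y` with `x = 20/71`, from the recursion for `n ≥ 10` -/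
def StAna : Prop := ∃ y : ℚ, ∀ n, c n ≤ y * (71 / 20) ^ n

end Pool.Agent.K7.H16.SG
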